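import Pool.Agent.Helper785_Causal.Equality

/-!
# MP_7034eb_an: the entropies of strongly irreducible shifts of finite type with a uniform causal
kernel

For every `d ≥ 2`, the entropies of the nonempty strongly irreducible `ℤ^d`-shifts of finite type
which are given by a uniform causal kernel of finite memory are exactly the numbers `q * log l`,
`q ≥ 0` rational, `l` a Perron number.

The points of such a shift are generated site by site: the symbol at `v` is chosen with the
probabilities `p u c`, `c : A`, where `u` is the pattern that has been chosen at the places `v - f`,
`f ∈ F`. Uniformity means that all patterns on a cube of side `k` get the probability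
`exp (-h k^d)`, up to a factor `exp (O (k^(d-1)))`, with `h` the entropy.

Definitions (files `Pool/Agent/Helper785_SIEnt/Defs.lean`, `Pool/Agent/Helper785_Causal/Defs.lean`,
`Pool/Agent/Helper785_Causal/Realize.lean`):
* `sft L` is the set of all configurations on `ℤ^d` in which no translate of a pattern of the
  finite list `L` occurs;
* `StronglyIrreducible X`: for some `M ≥ 1`, whenever `F, G ⊆ ℤ^d` have distance at least `M` in
  the maximum norm and `x, y ∈ X`, some `z ∈ X` agrees with `x` on `F` and with `y` on `G`;
* `HasEntropy X h`: `log (number of patterns on {0, …, k-1}^d in X) / k^d` converges to `h`;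
* `kernelShift F p` is the set of all `x` such that `p ((x (v - f))_{f ∈ F}) (x v) > 0` for all `v`;
* `IsCausal F p`: an additive map `ℤ^d → ℤ` is positive on the finite set `F`, the numbers `p u c`
  are nonnegative, and `∑ c, p u c = 1` for all `u`;
* `UniformGibbs F p h`: for some `C` one has
  `|∑ v ∈ {0, …, k-1}^d, log (p ((x (v - f))_{f ∈ F}) (x v)) + h k^d| ≤ C k^(d-1)` for all `k` and
  all `x` in `kernelShift F p`;
* `causalEntropySet d` is the set of the entropies `h` of all nonempty strongly irreducible
  `ℤ^d`-shifts of finite type `sft L = kernelShift F p` with `IsCausal F p` and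
  `UniformGibbs F p h`;
* `IsPerron l`: `l ≥ 1` is a real algebraic integer, and all its other conjugates are smaller than
  `l` in absolute value.
-/

set_option autoImplicit false

namespace Pool.Agent.Results.MP_7034eb_an.CausalKernels

open Pool.Agent.Helper785.SIEnt Pool.Agent.Helper785.Causal

/-- For `d ≥ 2`, the strongly irreducible `ℤ^d`-shifts of finite type with a uniform causal kernel
of finite memory have exactly the entropies `q * log l`, `q ≥ 0` rational, `l` Perron. -/
theorem result (d : ℕ) (hd : 2 ≤ d) : causalEntropySet d =
    {h : ℝ | ∃ (q : ℚ) (l : ℝ), 0 ≤ q ∧ IsPerron l ∧ h = (q : ℝ) * Real.log l} :=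
  causalEntropySet_eq hd

end Pool.Agent.Results.MP_7034eb_an.CausalKernels
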