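import Pool.Agent.Helper785_BG.Final

/-!
# MP_7034eb_an: approximation of the entropy in time `2 ^ O(n)`

If `h` is the entropy of a nonempty `ℤ²`-shift of finite type which is strongly irreducible or,
more generally, block gluing, then a Turing machine computes from the input `n` (in unary) a
rational number within `1 / n` of `h`, in at most `2 ^ (C * (n + 1))` steps, where `C` does not
depend on `n`. In particular this holds for every `h` in `E_2`.

Definitions (files `Pool/Agent/Helper785_SIEnt/Defs.lean`, `Pool/Agent/Helper785_BG/Rect.lean`,
`Pool/Agent/Helper785_BG/Final.lean`):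
* `sft L` is the set of all configurations on `ℤ^d` in which no translate of a pattern of the
  finite list `L` occurs;
* `StronglyIrreducible X`: for some `M ≥ 1`, whenever `F, G ⊆ ℤ^d` have distance at least `M` in
  the maximum norm and `x, y ∈ X`, some `z ∈ X` agrees with `x` on `F` and with `y` on `G`;
* `BlockGluing X`: the same for finite boxes `F, G`;
* `HasEntropy X h`: `log (number of patterns on {0, …, k-1}^d in X) / k^d` converges to `h`;
* `ExpTimeApprox h`: there are a function `r : ℕ → ℕ × ℕ`, a constant `C` and a machine computing
  `r` in the sense of Mathlib's `Turing.TM2ComputableInTime` (input `n` ones, output `(p, q)` given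
  as `p` ones, a zero, `q` ones) in time at most `2 ^ (C * (n + 1))`, such that for `n ≥ 1` and
  `r n = (p, q)` one has `q > 0` and `|h - p / q| < 1 / n`.
-/

set_option autoImplicit false

namespace Pool.Agent.Results.MP_7034eb_an.ExponentialTime

open Pool.Agent.Helper785.SIEnt Pool.Agent.Helper785.BG

/-- The entropy of a nonempty `ℤ²`-shift of finite type which is strongly irreducible or block
gluing can be approximated within `1 / n` in time `2 ^ O(n)`. -/
theorem result {A : Type} [Finite A] (L : List (Pattern 2 A)) (h : ℝ)
    (hne : (sft L).Nonempty)
    (hmix : StronglyIrreducible (sft L) ∨ BlockGluing (sft L))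
    (hent : HasEntropy (sft L) h) : ExpTimeApprox h :=
  expTimeApprox_of_blockGluing L hne (hmix.elim StronglyIrreducible.blockGluing id) hent

end Pool.Agent.Results.MP_7034eb_an.ExponentialTime
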