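import Pool.Agent.Helper785_SIEnt.PerronMat

/-!
# MP_7034eb_an: rational multiples of logarithms of Perron numbers

For every `d ≥ 2`, every nonnegative rational `q` and every Perron number `l`, the number
`q * log l` is the entropy of a nonempty strongly irreducible `ℤ^d`-shift of finite type. These
numbers are the entropies of all nonempty `ℤ`-shifts of finite type, mixing or not, while the
strongly irreducible `ℤ`-shifts of finite type only have the entropies `log l`.

Definitions (file `Pool/Agent/Helper785_SIEnt/Defs.lean`):
* `sft L` is the set of all configurations on `ℤ^d` in which no translate of a pattern of the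
  finite list `L` occurs;
* `StronglyIrreducible X`: for some `M ≥ 1`, whenever `F, G ⊆ ℤ^d` have distance at least `M` in
  the maximum norm and `x, y ∈ X`, some `z ∈ X` agrees with `x` on `F` and with `y` on `G`;
* `HasEntropy X h`: `log (number of patterns on {0, …, k-1}^d in X) / k^d` converges to `h`;
* `entropySet d` is the set `E_d` of the entropies of all nonempty strongly irreducible
  `ℤ^d`-shifts of finite type over finite alphabets;
* `IsPerron l`: `l ≥ 1` is a real algebraic integer, and all its other conjugates are smaller than
  `l` in absolute value.
-/

set_option autoImplicit false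

namespace Pool.Agent.Results.MP_7034eb_an.RationalMultiples

open Pool.Agent.Helper785.SIEnt

/-- For every `d ≥ 2` the set `E_d` contains `q * log l` for all rational `q ≥ 0` and all Perron
numbers `l`. -/
theorem result (d : ℕ) (hd : 2 ≤ d) :
    {h : ℝ | ∃ (q : ℚ) (l : ℝ), 0 ≤ q ∧ IsPerron l ∧ h = (q : ℝ) * Real.log l} ⊆ entropySet d := by
  rintro h ⟨q, l, hq, hl, rfl⟩
  exact rat_mul_log_mem hd q hq l hl

end Pool.Agent.Results.MP_7034eb_an.RationalMultiples
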