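import Pool.Agent.Helper785_SP.Red
import Pool.Agent.Helper785_SP.PolyV2

/-!
# MP_7034eb_an: entropies of strongly irreducible shifts of finite type and `#P`

Let `X` be a nonempty `ℤ^d`-shift of finite type with entropy `h`, where `d = 2` and `X` is strongly
irreducible or block gluing, or `X` is strongly irreducible and has a point which is periodic in
every coordinate. Then `h = log f(1^n) / n^d + O(1/n)` for a function `f` in `#P`, and `h` can be
approximated within `1/n` in polynomial time with an oracle in `#P`. In particular this holds for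
every `h` in `E_2`.

Definitions (files `Pool/Agent/Helper785_SIEnt/Defs.lean`, `Pool/Agent/Helper785_BG/Rect.lean`,
`Pool/Agent/Helper785_SP/Per.lean`, `Pool/Agent/Helper785_SP/Red.lean`,
`Pool/Agent/H527R2/SharpP.lean`):
* `sft L` is the set of all configurations on `ℤ^d` in which no translate of a pattern of the
  finite list `L` occurs;
* `StronglyIrreducible X`: for some `M ≥ 1`, whenever `F, G ⊆ ℤ^d` have distance at least `M` in
  the maximum norm and `x, y ∈ X`, some `z ∈ X` agrees with `x` on `F` and with `y` on `G`;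
* `BlockGluing X`: the same for finite boxes `F, G`;
* `HasEntropy X h`: `log (number of patterns on {0, …, k-1}^d in X) / k^d` converges to `h`;
* `IsPer P x`: `x (v + P u) = x v` for all `u, v ∈ ℤ^d`;
* `SharpP f`: `f x` is the number of strings `w` of length `p(|x|)` accepted together with `x` by a
  polynomial-time verifier, where `p` is a polynomial;
* `InFPSharpP g`: `g` is computable in polynomial time with (adaptive) queries to a function in
  `#P`;
* `SharpPFormula d h`: for some `f` with `SharpP f` and some real `C`, for all `n ≥ 1`,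
  `0 < f (1^n)` and `|h - log f(1^n) / n^d| ≤ C / n`;
* `SharpPApprox h`: for some `g` with `InFPSharpP g`, for all `n ≥ 1`, `|h - g(1^n) / n| < 1 / n`.
-/

set_option autoImplicit false

namespace Pool.Agent.Results.MP_7034eb_an.SharpPEntropy

open Pool.Agent.Helper785.SIEnt Pool.Agent.Helper785.SP
open Pool.Agent.Helper785.BG (BlockGluing StronglyIrreducible.blockGluing exists_glue
  entropy_nonneg)

/-- The result for a strongly irreducible shift of finite type with a periodic point. -/
theorem of_periodic {d : ℕ} (hd : 1 ≤ d) {A : Type} [Finite A] (L : List (Pattern d A))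
    (hsi : StronglyIrreducible (sft L)) {x : (Fin d → ℤ) → A} (hx : x ∈ sft L) {P : ℕ}
    (hP : 1 ≤ P) (hper : IsPer P x) {h : ℝ} (hent : HasEntropy (sft L) h) :
    SharpPFormula d h := by
  obtain ⟨M, _, hM⟩ := hsi
  obtain ⟨k, ⟨e⟩⟩ := Finite.exists_equiv_fin A
  obtain ⟨R, hR⟩ := exists_radius L
  obtain ⟨C, hC⟩ := formula e hx hper hR hent (M := M) hM hd
  refine ⟨fun y => codes L e x P R y.length, sharpP_codes L e x hP R, C, fun n hn => ?_⟩
  simp only [List.length_replicate]
  exact ⟨codes_pos e hx hper hR n, hC n hn⟩

/-- The result for a block gluing shift of finite type on `ℤ²`. -/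
theorem of_blockGluing {A : Type} [Finite A] (L : List (Pattern 2 A)) (hne : (sft L).Nonempty)
    (hbg : BlockGluing (sft L)) {h : ℝ} (hent : HasEntropy (sft L) h) : SharpPFormula 2 h := by
  obtain ⟨M, hM, hX⟩ := exists_glue hbg
  obtain ⟨k, ⟨e⟩⟩ := Finite.exists_equiv_fin A
  obtain ⟨R, hR⟩ := exists_radius L
  obtain ⟨P, hP, x, hx, hper⟩ := exists_periodic2 hX hne
  obtain ⟨S, hS⟩ : ∃ S : ℕ, Nat.card (Fin (2 * R + 1) → Fin (2 * M) → A) *
    ((2 * R + 1) * P) + (2 * R + 1) ≤ S := ⟨_, le_rfl⟩
  obtain ⟨C, hC⟩ := formula2 e hx hP hper hR hent hX hM hS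
  refine ⟨fun y => codes2 L e x P R M S y.length, sharpP_codes2 L e x hP R M S, C,
    fun n hn => ?_⟩
  simp only [List.length_replicate]
  exact ⟨codes2_pos e hx hP hper hR n, hC n hn⟩

/-- The entropy of a nonempty `ℤ^d`-shift of finite type, where `d = 2` and the shift is strongly
irreducible or block gluing, or the shift is strongly irreducible and has a periodic point, is
`log f(1^n) / n^d + O(1/n)` with `f` in `#P`, and can be approximated within `1/n` in `FP^#P`. -/
theorem result {d : ℕ} (hd : 1 ≤ d) {A : Type} [Finite A] (L : List (Pattern d A)) (h : ℝ)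
    (hne : (sft L).Nonempty)
    (hmix : (d = 2 ∧ (StronglyIrreducible (sft L) ∨ BlockGluing (sft L))) ∨
      (StronglyIrreducible (sft L) ∧ ∃ x ∈ sft L, ∃ P : ℕ, 1 ≤ P ∧ IsPer P x))
    (hent : HasEntropy (sft L) h) : SharpPFormula d h ∧ SharpPApprox h := by
  have h1 : SharpPFormula d h := by
    rcases hmix with ⟨rfl, hmix⟩ | ⟨hsi, x, hx, P, hP, hper⟩
    · exact of_blockGluing L hne (hmix.elim StronglyIrreducible.blockGluing id) hent
    · exact of_periodic hd L hsi hx hP hper hent
  exact ⟨h1, approx_of_formula hd (entropy_nonneg hent) h1⟩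

end Pool.Agent.Results.MP_7034eb_an.SharpPEntropy
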